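import Mathlib

/-!
# Relative neighbourhood graphs: definitions
-/

namespace Helper5.RNGraph

open scoped InnerProductSpace

/-- The relative neighbourhood graph of a finite set of points of 3-space. -/
def relNbhd (P : Finset (EuclideanSpace ℝ (Fin 3))) :
    SimpleGraph (EuclideanSpace ℝ (Fin 3)) where
  Adj p q := p ∈ P ∧ q ∈ P ∧ p ≠ q ∧
    ∀ r ∈ P, r ≠ p → r ≠ q → ¬ (max (dist p r) (dist q r) < dist p q)
  symm := ⟨fun p q ⟨hp, hq, hne, h⟩ => ⟨hq, hp, hne.symm, fun r hr h1 h2 h3 => h r hr h2 h1 (by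
    rw [max_comm, dist_comm p q]; exact h3)⟩⟩
  loopless := ⟨fun p h => h.2.2.1 rfl⟩

/-- The number of edges of the relative neighbourhood graph of `P`. -/
noncomputable def numEdges (P : Finset (EuclideanSpace ℝ (Fin 3))) : ℕ := (relNbhd P).edgeSet.ncard

/-- The maximum number of edges of the relative neighbourhood graph of `n` points of 3-space. -/
noncomputable def e3 (n : ℕ) : ℕ :=
  sSup {m | ∃ P : Finset (EuclideanSpace ℝ (Fin 3)), P.card = n ∧ numEdges P = m}

/-- A plane in 3-space. -/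
def IsPlane (S : Set (EuclideanSpace ℝ (Fin 3))) : Prop :=
  ∃ a : EuclideanSpace ℝ (Fin 3), a ≠ 0 ∧ ∃ c : ℝ, S = {x | ⟪a, x⟫_ℝ = c}

/-- A sphere in 3-space. -/
def IsSphere (S : Set (EuclideanSpace ℝ (Fin 3))) : Prop :=
  ∃ (o : EuclideanSpace ℝ (Fin 3)) (ρ : ℝ), S = {x | dist x o = ρ}

end Helper5.RNGraph
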