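import Pool.Agent.helper5.RNG.Count
import Pool.Agent.helper5.RNG.Defs

/-!
# Relative neighbourhood graphs: scales and cells
-/

namespace Helper5.RNG

open scoped InnerProductSpace
open Finset
open Helper5.RNGraph

lemma RNG_near {P : Finset E} {p q r : E} (h : (relNbhd P).Adj p q) (hr : r ∈ P)
    (hd : dist q r < dist p q) : dist p q ≤ dist p r := by
  by_cases h1 : r = q
  · rw [h1]
  by_cases h2 : r = p
  · rw [h2, dist_comm q p] at hd
    exact absurd hd (lt_irrefl _)
  by_contra hlt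
  push Not at hlt
  exact h.2.2.2 r hr h2 h1 (max_lt hlt hd)

lemma RNG_mono {P Q : Finset E} (hPQ : Q ⊆ P) {p q : E} (h : (relNbhd P).Adj p q) (hp : p ∈ Q)
    (hq : q ∈ Q) : (relNbhd Q).Adj p q :=
  ⟨hp, hq, h.2.2.1, fun r hr h1 h2 => h.2.2.2 r (hPQ hr) h1 h2⟩

/-- The index of the direction from `b` to `q`. -/
noncomputable def dirIdx (b q : E) : Fin 3 → ℤ := fun j => ⌊2 * ((q j - b j) / dist b q)⌋

lemma abs_coord_le (b q : E) (j : Fin 3) : |q j - b j| ≤ dist b q := by
  have h := dist3_sq b q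
  apply abs_le_of_sq_le_sq _ dist_nonneg
  rw [h]
  fin_cases j
  · show (q 0 - b 0) ^ 2 ≤ _
    nlinarith [sq_nonneg (b 1 - q 1), sq_nonneg (b 2 - q 2)]
  · show (q 1 - b 1) ^ 2 ≤ _
    nlinarith [sq_nonneg (b 0 - q 0), sq_nonneg (b 2 - q 2)]
  · show (q 2 - b 2) ^ 2 ≤ _
    nlinarith [sq_nonneg (b 0 - q 0), sq_nonneg (b 1 - q 1)]

lemma dirIdx_mem {b q : E} (h : b ≠ q) :
    dirIdx b q ∈ Fintype.piFinset (fun _ : Fin 3 => Finset.Icc (-2 : ℤ) 2) := by
  rw [Fintype.mem_piFinset]
  intro j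
  have hd : 0 < dist b q := dist_pos.2 h
  have h1 := abs_coord_le b q j
  have h2 : |(q j - b j) / dist b q| ≤ 1 := by
    rw [abs_div, abs_of_pos hd]
    exact (div_le_one hd).2 h1
  obtain ⟨h3, h4⟩ := abs_le.1 h2
  rw [Finset.mem_Icc]
  unfold dirIdx
  constructor
  · rw [Int.le_floor]
    push_cast
    linarith
  · have : ⌊2 * ((q j - b j) / dist b q)⌋ < 3 := by
      rw [Int.floor_lt]
      push_cast
      linarith
    omega

lemma floor_eq_close {x y : ℝ} (h : ⌊x⌋ = ⌊y⌋) : (x - y) ^ 2 < 1 := by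
  have := Int.abs_sub_lt_one_of_floor_eq_floor h
  rw [← sq_abs]
  have h0 := abs_nonneg (x - y)
  nlinarith

lemma same_dir {P : Finset E} {b q q' : E} (h : (relNbhd P).Adj b q) (h' : (relNbhd P).Adj b q')
    (hidx : dirIdx b q = dirIdx b q') (hlt : dist b q < dist b q') : False := by
  have hq : q ∈ P := h.2.1
  have hA : 0 < dist b q := dist_pos.2 h.2.2.1
  have hB : 0 < dist b q' := dist_pos.2 h'.2.2.1
  have hD : dist b q' ≤ dist q' q := by
    by_contra hcon
    push Not at hcon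
    have := RNG_near h' hq hcon
    linarith
  have e0 := floor_eq_close (congrFun hidx 0)
  have e1 := floor_eq_close (congrFun hidx 1)
  have e2 := floor_eq_close (congrFun hidx 2)
  have sA := dist3_sq b q
  have sB := dist3_sq b q'
  have sD := dist3_sq q' q
  set A := dist b q with hAdef
  set B := dist b q' with hBdef
  set x0 := q 0 - b 0 with hx0
  set x1 := q 1 - b 1 with hx1
  set x2 := q 2 - b 2 with hx2
  set y0 := q' 0 - b 0 with hy0
  set y1 := q' 1 - b 1 with hy1
  set y2 := q' 2 - b 2 with hy2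
  have tA : A ^ 2 = x0 ^ 2 + x1 ^ 2 + x2 ^ 2 := by rw [sA, hx0, hx1, hx2]; ring
  have tB : B ^ 2 = y0 ^ 2 + y1 ^ 2 + y2 ^ 2 := by rw [sB, hy0, hy1, hy2]; ring
  have tD : dist q' q ^ 2 = (y0 - x0) ^ 2 + (y1 - x1) ^ 2 + (y2 - x2) ^ 2 := by
    rw [sD, hx0, hx1, hx2, hy0, hy1, hy2]; ring
  have hdot : 2 * (x0 * y0 + x1 * y1 + x2 * y2) ≤ A ^ 2 := by
    have : B ^ 2 ≤ dist q' q ^ 2 := by gcongr
    rw [tD] at this
    nlinarith
  -- sum of squares of differences of unit vectors
  have s : (x0 / A - y0 / B) ^ 2 + (x1 / A - y1 / B) ^ 2 + (x2 / A - y2 / B) ^ 2 < 3 / 4 := by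
    nlinarith
  have s' : (x0 / A - y0 / B) ^ 2 + (x1 / A - y1 / B) ^ 2 + (x2 / A - y2 / B) ^ 2
      = 2 - 2 * (x0 * y0 + x1 * y1 + x2 * y2) / (A * B) := by
    have : (x0 / A - y0 / B) ^ 2 + (x1 / A - y1 / B) ^ 2 + (x2 / A - y2 / B) ^ 2
        = (x0 ^ 2 + x1 ^ 2 + x2 ^ 2) / A ^ 2 + (y0 ^ 2 + y1 ^ 2 + y2 ^ 2) / B ^ 2
          - 2 * (x0 * y0 + x1 * y1 + x2 * y2) / (A * B) := by
      field_simp
      ring
    rw [this, ← tA, ← tB, div_self (pow_pos hA 2).ne', div_self (pow_pos hB 2).ne']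
    ring
  rw [s'] at s
  have : 2 * (x0 * y0 + x1 * y1 + x2 * y2) / (A * B) ≤ 1 := by
    rw [div_le_one (mul_pos hA hB)]
    nlinarith
  linarith

/-- The scale of a pair. -/
noncomputable def scale (b q : E) : ℤ := Int.log 2 (dist b q)

/-- The cell of a point at a given scale. -/
noncomputable def cell (i : ℤ) (x : E) : Fin 3 → ℤ := fun j => ⌊x j / (2 : ℝ) ^ (i - 1)⌋

lemma cell_close {i : ℤ} {x y : E} (h : cell i x = cell i y) : dist x y < (2 : ℝ) ^ i := by
  have hs : (0 : ℝ) < (2 : ℝ) ^ (i - 1) := by positivity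
  have h2 : (2 : ℝ) ^ i = 2 * (2 : ℝ) ^ (i - 1) := by
    rw [← zpow_one_add₀ (by norm_num : (2 : ℝ) ≠ 0)]; congr 1; ring
  set s := (2 : ℝ) ^ (i - 1) with hsdef
  have e : ∀ j, (x j - y j) ^ 2 < s ^ 2 := by
    intro j
    have := floor_eq_close (congrFun h j)
    have e1 : x j / s - y j / s = (x j - y j) / s := by ring
    rw [e1, div_pow, div_lt_one (pow_pos hs 2)] at this
    exact this
  have hd := dist3_sq x y
  have h0 := e 0
  have h1 := e 1
  have h3 := e 2
  rw [h2]
  have : dist x y ^ 2 < (2 * s) ^ 2 := by rw [hd]; nlinarith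
  exact lt_of_pow_lt_pow_left₀ 2 (by positivity) this

lemma cell_near {i : ℤ} {x y : E} (h : dist x y < (2 : ℝ) ^ (i + 1)) (j : Fin 3) :
    cell i y j - cell i x j ∈ Finset.Icc (-4 : ℤ) 4 := by
  have hs : (0 : ℝ) < (2 : ℝ) ^ (i - 1) := by positivity
  have h2 : (2 : ℝ) ^ (i + 1) = 4 * (2 : ℝ) ^ (i - 1) := by
    have : (4 : ℝ) = (2 : ℝ) ^ (2 : ℤ) := by norm_num
    rw [this, ← zpow_add₀ (by norm_num : (2 : ℝ) ≠ 0)]; congr 1; ring
  set s := (2 : ℝ) ^ (i - 1) with hsdef
  have h1 := abs_coord_le x y j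
  have h3 : |y j / s - x j / s| < 4 := by
    have e1 : y j / s - x j / s = (y j - x j) / s := by ring
    rw [e1, abs_div, abs_of_pos hs, div_lt_iff₀ hs, ← h2]
    linarith
  obtain ⟨h4, h5⟩ := abs_lt.1 h3
  rw [Finset.mem_Icc]
  have a1 := Int.floor_le (y j / s)
  have a2 := Int.lt_floor_add_one (y j / s)
  have b1 := Int.floor_le (x j / s)
  have b2 := Int.lt_floor_add_one (x j / s)
  have c1 : ((⌊y j / s⌋ - ⌊x j / s⌋ : ℤ) : ℝ) < 5 := by push_cast; linarith
  have c2 : (-5 : ℝ) < ((⌊y j / s⌋ - ⌊x j / s⌋ : ℤ) : ℝ) := by push_cast; linarith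
  have c1' : ⌊y j / s⌋ - ⌊x j / s⌋ < 5 := by exact_mod_cast c1
  have c2' : -5 < ⌊y j / s⌋ - ⌊x j / s⌋ := by exact_mod_cast c2
  show -4 ≤ ⌊y j / s⌋ - ⌊x j / s⌋ ∧ ⌊y j / s⌋ - ⌊x j / s⌋ ≤ 4
  omega

lemma scale_le {b q : E} (h : b ≠ q) : (2 : ℝ) ^ scale b q ≤ dist b q := by
  have := Int.zpow_log_le_self (b := 2) (by norm_num) (dist_pos.2 h)
  exact_mod_cast this

lemma lt_scale (b q : E) : dist b q < (2 : ℝ) ^ (scale b q + 1) := by
  have := Int.lt_zpow_succ_log_self (b := 2) (by norm_num) (dist b q)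
  exact_mod_cast this

/-- The key of a pair: scale and the two cells. -/
noncomputable def key (e : E × E) : ℤ × (Fin 3 → ℤ) × (Fin 3 → ℤ) :=
  (scale e.1 e.2, cell (scale e.1 e.2) e.1, cell (scale e.1 e.2) e.2)

/-- Ordered adjacent pairs with second point in `S`. -/
noncomputable def pairs (P : Finset E) (S : Set E) : Finset (E × E) := by
  classical exact (P ×ˢ P).filter (fun e => (relNbhd P).Adj e.1 e.2 ∧ e.2 ∈ S)

lemma mem_pairs {P : Finset E} {S : Set E} {e : E × E} :
    e ∈ pairs P S ↔ (relNbhd P).Adj e.1 e.2 ∧ e.2 ∈ S := by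
  classical
  unfold pairs
  rw [Finset.mem_filter, Finset.mem_product]
  exact ⟨fun h => h.2, fun h => ⟨⟨h.1.1, h.1.2.1⟩, h⟩⟩

/-- The scales of the edges at one vertex: at most 125. -/
lemma scales_card (P : Finset E) (b : E) (N : Finset E) (hN : ∀ q ∈ N, (relNbhd P).Adj b q) :
    (N.image (fun q => scale b q)).card ≤ 125 := by
  classical
  have h1 : ∀ q ∈ N, ∀ q' ∈ N, dirIdx b q = dirIdx b q' → dist b q = dist b q' := by
    intro q hq q' hq' h
    rcases lt_trichotomy (dist b q) (dist b q') with hl | hl | hl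
    · exact (same_dir (hN q hq) (hN q' hq') h hl).elim
    · exact hl
    · exact (same_dir (hN q' hq') (hN q hq) h.symm hl).elim
  let f : (Fin 3 → ℤ) → ℤ := fun c =>
    if h : ∃ q ∈ N, dirIdx b q = c then scale b h.choose else 0
  have h2 : N.image (fun q => scale b q) ⊆ (N.image (fun q => dirIdx b q)).image f := by
    intro i hi
    obtain ⟨q, hq, rfl⟩ := Finset.mem_image.1 hi
    refine Finset.mem_image.2 ⟨dirIdx b q, Finset.mem_image_of_mem _ hq, ?_⟩
    have hex : ∃ q' ∈ N, dirIdx b q' = dirIdx b q := ⟨q, hq, rfl⟩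
    show (if h : ∃ q' ∈ N, dirIdx b q' = dirIdx b q then scale b h.choose else 0) = scale b q
    rw [dif_pos hex]
    have hs := hex.choose_spec
    have := h1 _ hs.1 q hq hs.2
    unfold scale
    rw [this]
  have h3 : N.image (fun q => dirIdx b q) ⊆
      Fintype.piFinset (fun _ : Fin 3 => Finset.Icc (-2 : ℤ) 2) := by
    intro c hc
    obtain ⟨q, hq, rfl⟩ := Finset.mem_image.1 hc
    exact dirIdx_mem (hN q hq).2.2.1
  calc _ ≤ _ := Finset.card_le_card h2
    _ ≤ _ := Finset.card_image_le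
    _ ≤ _ := Finset.card_le_card h3
    _ = 125 := by rw [Fintype.card_piFinset]; simp

/-- For a family of pairs all of whose members have the given first point (second point), the
number of keys is bounded. -/
lemma keys_card_fst (P : Finset E) (b : E) (G : Finset (E × E))
    (hG : ∀ e ∈ G, (relNbhd P).Adj e.1 e.2) (hb : ∀ e ∈ G, e.1 = b) :
    (G.image key).card ≤ 125 * 729 := by
  classical
  have h1 := scales_card P b (G.image (fun e => e.2)) (by
    intro q hq
    obtain ⟨e, he, rfl⟩ := Finset.mem_image.1 hq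
    have := hG e he
    rw [hb e he] at this
    exact this)
  set I := (G.image (fun e => e.2)).image (fun q => scale b q) with hI
  set Bx := Fintype.piFinset (fun _ : Fin 3 => Finset.Icc (-4 : ℤ) 4) with hBx
  have hcard : (I ×ˢ Bx).card ≤ 125 * 729 := by
    rw [Finset.card_product]
    have : Bx.card = 729 := by rw [hBx, Fintype.card_piFinset]; simp
    rw [this]
    exact Nat.mul_le_mul_right _ h1
  refine le_trans ?_ hcard
  have hsub : G.image key ⊆ (I ×ˢ Bx).image
      (fun t => (t.1, cell t.1 b, fun j => cell t.1 b j + t.2 j)) := by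
    intro k hk
    obtain ⟨e, he, rfl⟩ := Finset.mem_image.1 hk
    have hbe := hb e he
    refine Finset.mem_image.2 ⟨(scale b e.2,
      fun j => cell (scale b e.2) e.2 j - cell (scale b e.2) b j), ?_, ?_⟩
    · rw [Finset.mem_product]
      refine ⟨Finset.mem_image_of_mem _ (Finset.mem_image_of_mem _ he), ?_⟩
      rw [hBx, Fintype.mem_piFinset]
      intro j
      exact cell_near (lt_scale b e.2) j
    · unfold key
      rw [hbe]
      refine Prod.ext rfl (Prod.ext rfl ?_)
      funext j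
      simp
  exact (Finset.card_le_card hsub).trans Finset.card_image_le

lemma key_swap (e : E × E) : key e.swap = ((key e).1, (key e).2.2, (key e).2.1) := by
  have : scale e.2 e.1 = scale e.1 e.2 := by unfold scale; rw [dist_comm]
  unfold key
  simp only [Prod.fst_swap, Prod.snd_swap, this]

lemma keys_card_snd (P : Finset E) (b : E) (G : Finset (E × E))
    (hG : ∀ e ∈ G, (relNbhd P).Adj e.1 e.2) (hb : ∀ e ∈ G, e.2 = b) :
    (G.image key).card ≤ 125 * 729 := by
  classical
  have h := keys_card_fst P b (G.image Prod.swap)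
    (by
      intro e he
      obtain ⟨e', he', rfl⟩ := Finset.mem_image.1 he
      exact (hG e' he').symm)
    (by
      intro e he
      obtain ⟨e', he', rfl⟩ := Finset.mem_image.1 he
      exact hb e' he')
  refine le_trans ?_ h
  rw [Finset.image_image]
  apply Finset.card_le_card_of_injOn (fun k => (k.1, k.2.2, k.2.1))
  · intro k hk
    obtain ⟨e, he, rfl⟩ := Finset.mem_image.1 hk
    refine Finset.mem_coe.2 (Finset.mem_image.2 ⟨e, he, ?_⟩)
    exact key_swap e
  · intro k _ k' _ hkk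
    simp only [Prod.mk.injEq] at hkk
    exact Prod.ext hkk.1 (Prod.ext hkk.2.2 hkk.2.1)

/-- The pairs with one key are mutual nearest pairs. -/
lemma mutual_fiber (P : Finset E) (S : Set E) (k : ℤ × (Fin 3 → ℤ) × (Fin 3 → ℤ))
    (F : Finset (E × E)) (hF : ∀ e ∈ F, e ∈ pairs P S ∧ key e = k) :
    Mutual (F.image (fun e => e.2)) (F.image (fun e => e.1)) F := by
  classical
  have hk : ∀ e ∈ F, ∀ e' ∈ F, scale e.1 e.2 = scale e'.1 e'.2 ∧
      cell (scale e.1 e.2) e.1 = cell (scale e.1 e.2) e'.1 ∧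
      cell (scale e.1 e.2) e.2 = cell (scale e.1 e.2) e'.2 := by
    intro e he e' he'
    have h1 : key e = key e' := by rw [(hF e he).2, (hF e' he').2]
    unfold key at h1
    simp only [Prod.mk.injEq] at h1
    refine ⟨h1.1, ?_, ?_⟩
    · rw [h1.2.1, h1.1]
    · rw [h1.2.2, h1.1]
  constructor
  · intro e he
    exact Finset.mem_image_of_mem _ he
  · intro e he
    rw [mem_Nr]
    refine ⟨Finset.mem_image_of_mem _ he, fun r' hr' => ?_⟩
    obtain ⟨e', he', rfl⟩ := Finset.mem_image.1 hr'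
    have hadj := (mem_pairs.1 (hF e he).1).1
    have hadj' := (mem_pairs.1 (hF e' he').1).1
    apply RNG_near hadj hadj'.2.1
    exact lt_of_lt_of_le (cell_close (hk e he e' he').2.2) (scale_le hadj.2.2.1)
  · intro e he b' hb'
    obtain ⟨e', he', rfl⟩ := Finset.mem_image.1 hb'
    have hadj := (mem_pairs.1 (hF e he).1).1
    have hadj' := (mem_pairs.1 (hF e' he').1).1
    have h1 : dist e.1 e'.1 < dist e.1 e.2 :=
      lt_of_lt_of_le (cell_close (hk e he e' he').2.1) (scale_le hadj.2.2.1)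
    have h2 := RNG_near hadj.symm hadj'.1 (by rw [dist_comm e.2 e.1]; exact h1)
    show dist e.1 e.2 ≤ dist e'.1 e.2
    rw [dist_comm e.1 e.2, dist_comm e'.1 e.2]
    exact h2

/-- The number of edges with one end on a given plane or sphere is linear. -/
lemma pairs_card (P : Finset E) (S : Set E) {ψ : V} {γ : ℝ} (hψ : ψ ≠ 0)
    (hS : ∀ r ∈ S, ⟪ψ, lift r⟫_ℝ + γ = 0) : (pairs P S).card ≤ 637875 * P.card := by
  classical
  set T := pairs P S with hT
  have hadj : ∀ e ∈ T, (relNbhd P).Adj e.1 e.2 := fun e he => (mem_pairs.1 he).1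
  have h1 : T.card = ∑ k ∈ T.image key, (T.filter (fun e => key e = k)).card :=
    Finset.card_eq_sum_card_image key T
  have h2 : ∀ k ∈ T.image key, (T.filter (fun e => key e = k)).card ≤
      5 * ((T.filter (fun e => key e = k)).image (fun e => e.2)).card
        + 2 * ((T.filter (fun e => key e = k)).image (fun e => e.1)).card := by
    intro k hk
    apply card_mutual (mutual_fiber P S k _ (fun e he => Finset.mem_filter.1 he)) hψ (γ := γ)
    intro r hr
    obtain ⟨e, he, rfl⟩ := Finset.mem_image.1 hr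
    exact hS _ (mem_pairs.1 (Finset.mem_filter.1 he).1).2
  have h3 : ∑ k ∈ T.image key, ((T.filter (fun e => key e = k)).image (fun e => e.2)).card
      = ∑ r ∈ T.image (fun e => e.2), ((T.filter (fun e => e.2 = r)).image key).card := by
    simp only [Finset.card_eq_sum_ones]
    rw [Finset.sum_comm']
    intro k r
    simp only [Finset.mem_image, Finset.mem_filter]
    constructor
    · rintro ⟨⟨e, he, rfl⟩, ⟨e', ⟨he', hk⟩, rfl⟩⟩
      exact ⟨⟨e', ⟨he', rfl⟩, hk⟩, ⟨e', he', rfl⟩⟩
    · rintro ⟨⟨e', ⟨he', rfl⟩, rfl⟩, _⟩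
      exact ⟨⟨e', he', rfl⟩, ⟨e', ⟨he', rfl⟩, rfl⟩⟩
  have h4 : ∑ k ∈ T.image key, ((T.filter (fun e => key e = k)).image (fun e => e.1)).card
      = ∑ r ∈ T.image (fun e => e.1), ((T.filter (fun e => e.1 = r)).image key).card := by
    simp only [Finset.card_eq_sum_ones]
    rw [Finset.sum_comm']
    intro k r
    simp only [Finset.mem_image, Finset.mem_filter]
    constructor
    · rintro ⟨⟨e, he, rfl⟩, ⟨e', ⟨he', hk⟩, rfl⟩⟩
      exact ⟨⟨e', ⟨he', rfl⟩, hk⟩, ⟨e', he', rfl⟩⟩
    · rintro ⟨⟨e', ⟨he', rfl⟩, rfl⟩, _⟩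
      exact ⟨⟨e', he', rfl⟩, ⟨e', ⟨he', rfl⟩, rfl⟩⟩
  have h5 : ∑ r ∈ T.image (fun e => e.2), ((T.filter (fun e => e.2 = r)).image key).card
      ≤ P.card * (125 * 729) := by
    calc _ ≤ ∑ r ∈ T.image (fun e => e.2), 125 * 729 := by
          apply Finset.sum_le_sum
          intro r hr
          apply keys_card_snd P r
          · intro e he; exact hadj e (Finset.mem_filter.1 he).1
          · intro e he; exact (Finset.mem_filter.1 he).2
      _ = (T.image (fun e => e.2)).card * (125 * 729) := by rw [Finset.sum_const, smul_eq_mul]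
      _ ≤ _ := by
          apply Nat.mul_le_mul_right
          apply Finset.card_le_card
          intro r hr
          obtain ⟨e, he, rfl⟩ := Finset.mem_image.1 hr
          exact (hadj e he).2.1
  have h6 : ∑ r ∈ T.image (fun e => e.1), ((T.filter (fun e => e.1 = r)).image key).card
      ≤ P.card * (125 * 729) := by
    calc _ ≤ ∑ r ∈ T.image (fun e => e.1), 125 * 729 := by
          apply Finset.sum_le_sum
          intro r hr
          apply keys_card_fst P r
          · intro e he; exact hadj e (Finset.mem_filter.1 he).1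
          · intro e he; exact (Finset.mem_filter.1 he).2
      _ = (T.image (fun e => e.1)).card * (125 * 729) := by rw [Finset.sum_const, smul_eq_mul]
      _ ≤ _ := by
          apply Nat.mul_le_mul_right
          apply Finset.card_le_card
          intro r hr
          obtain ⟨e, he, rfl⟩ := Finset.mem_image.1 hr
          exact (hadj e he).1
  have h7 : T.card ≤ 5 * ∑ k ∈ T.image key,
      ((T.filter (fun e => key e = k)).image (fun e => e.2)).card
      + 2 * ∑ k ∈ T.image key, ((T.filter (fun e => key e = k)).image (fun e => e.1)).card := by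
    rw [h1, Finset.mul_sum, Finset.mul_sum, ← Finset.sum_add_distrib]
    exact Finset.sum_le_sum h2
  rw [h3, h4] at h7
  omega

end Helper5.RNG
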