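import Pool.Agent.helper5.RNG.Fiber

/-!
# Counting mutual nearest pairs
-/

namespace Helper5.RNG

open scoped InnerProductSpace
open Finset

lemma exists_injective_functional (R : Finset E) :
    ∃ w : E, ∀ r ∈ R, ∀ r' ∈ R, ⟪w, r⟫_ℝ = ⟪w, r'⟫_ℝ → r = r' := by
  classical
  let p : E × E → Polynomial ℝ := fun q =>
    Polynomial.C (q.1 0 - q.2 0) + Polynomial.C (q.1 1 - q.2 1) * Polynomial.X
      + Polynomial.C (q.1 2 - q.2 2) * Polynomial.X ^ 2
  have hp : ∀ q : E × E, q.1 ≠ q.2 → p q ≠ 0 := by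
    intro q hq h0
    apply hq
    have c0 : (p q).coeff 0 = q.1 0 - q.2 0 := by
      simp only [p, Polynomial.coeff_add, Polynomial.coeff_C_mul, Polynomial.coeff_X,
        Polynomial.coeff_C, Polynomial.coeff_X_pow]
      norm_num
    have c1 : (p q).coeff 1 = q.1 1 - q.2 1 := by
      simp only [p, Polynomial.coeff_add, Polynomial.coeff_C_mul, Polynomial.coeff_X,
        Polynomial.coeff_C, Polynomial.coeff_X_pow]
      norm_num
    have c2 : (p q).coeff 2 = q.1 2 - q.2 2 := by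
      simp only [p, Polynomial.coeff_add, Polynomial.coeff_C_mul, Polynomial.coeff_X,
        Polynomial.coeff_C, Polynomial.coeff_X_pow]
      norm_num
    rw [h0, Polynomial.coeff_zero] at c0 c1 c2
    apply ext3 <;> linarith
  have hfin : (⋃ q ∈ ((R ×ˢ R).filter (fun q => q.1 ≠ q.2) : Finset (E × E)),
      {s : ℝ | (p q).IsRoot s}).Finite := by
    apply Set.Finite.biUnion (Finset.finite_toSet _)
    intro q hq
    apply Polynomial.finite_setOfPred_isRoot
    apply hp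
    exact (Finset.mem_filter.1 hq).2
  obtain ⟨s, hs⟩ := hfin.infinite_compl.nonempty
  refine ⟨!₂[1, s, s ^ 2], fun r hr r' hr' h => ?_⟩
  by_contra hne
  apply hs
  simp only [Set.mem_iUnion]
  refine ⟨(r, r'), Finset.mem_filter.2 ⟨Finset.mem_product.2 ⟨hr, hr'⟩, hne⟩, ?_⟩
  show (p (r, r')).eval s = 0
  rw [inner3, inner3] at h
  have e0 : (!₂[(1 : ℝ), s, s ^ 2] : E) 0 = 1 := rfl
  have e1 : (!₂[(1 : ℝ), s, s ^ 2] : E) 1 = s := rfl
  have e2 : (!₂[(1 : ℝ), s, s ^ 2] : E) 2 = s ^ 2 := rfl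
  rw [e0, e1, e2] at h
  simp only [p, Polynomial.eval_add, Polynomial.eval_mul, Polynomial.eval_C, Polynomial.eval_X,
    Polynomial.eval_pow]
  linarith

/-- Hypotheses on a set of mutual nearest pairs. -/
structure Mutual (R B : Finset E) (F : Finset (E × E)) : Prop where
  fst : ∀ e ∈ F, e.1 ∈ B
  snd : ∀ e ∈ F, e.2 ∈ Nr R e.1
  near : ∀ e ∈ F, ∀ b' ∈ B, dist e.1 e.2 ≤ dist b' e.2

lemma card_centre {R B : Finset E} {F : Finset (E × E)} (hF : Mutual R B F) (ψ : V)
    (G : Finset (E × E)) (hG : G ⊆ F) (hc : ∀ e ∈ G, Centre ψ e.1) : G.card ≤ R.card := by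
  apply Finset.card_le_card_of_injOn (fun e => e.2)
  · intro e he
    exact (mem_Nr.1 (hF.snd e (hG he))).1
  · intro e he e' he' h
    exact Prod.ext (centre_unique (hc e he) (hc e' he')) h

lemma card_min {R B : Finset E} {F : Finset (E × E)} (hF : Mutual R B F) {w : E}
    (hw : ∀ r ∈ R, ∀ r' ∈ R, ⟪w, r⟫_ℝ = ⟪w, r'⟫_ℝ → r = r')
    (G : Finset (E × E)) (hG : G ⊆ F)
    (hc : ∀ e ∈ G, ∀ r1 ∈ Nr R e.1, ⟪w, e.2⟫_ℝ ≤ ⟪w, r1⟫_ℝ) : G.card ≤ B.card := by
  apply Finset.card_le_card_of_injOn (fun e => e.1)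
  · intro e he
    exact hF.fst e (hG he)
  · intro e he e' he' h
    refine Prod.ext h ?_
    have h1 := hF.snd e (hG he)
    have h2 := hF.snd e' (hG he')
    have h' : e.1 = e'.1 := h
    apply hw _ (mem_Nr.1 h1).1 _ (mem_Nr.1 h2).1
    apply le_antisymm
    · apply hc e he; rw [h']; exact h2
    · apply hc e' he'; rw [← h']; exact h1

lemma card_max {R B : Finset E} {F : Finset (E × E)} (hF : Mutual R B F) {w : E}
    (hw : ∀ r ∈ R, ∀ r' ∈ R, ⟪w, r⟫_ℝ = ⟪w, r'⟫_ℝ → r = r')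
    (G : Finset (E × E)) (hG : G ⊆ F)
    (hc : ∀ e ∈ G, ∀ r1 ∈ Nr R e.1, ⟪w, r1⟫_ℝ ≤ ⟪w, e.2⟫_ℝ) : G.card ≤ B.card := by
  apply Finset.card_le_card_of_injOn (fun e => e.1)
  · intro e he
    exact hF.fst e (hG he)
  · intro e he e' he' h
    refine Prod.ext h ?_
    have h1 := hF.snd e (hG he)
    have h2 := hF.snd e' (hG he')
    have h' : e.1 = e'.1 := h
    apply hw _ (mem_Nr.1 h1).1 _ (mem_Nr.1 h2).1
    apply le_antisymm
    · apply hc e' he'; rw [← h']; exact h1
    · apply hc e he; rw [h']; exact h2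

lemma card_mid {R B : Finset E} {F : Finset (E × E)} (hF : Mutual R B F) {ψ : V} {γ : ℝ}
    (hψ : ψ ≠ 0) (hR : ∀ r ∈ R, ⟪ψ, lift r⟫_ℝ + γ = 0) {w : E}
    (G : Finset (E × E)) (hG : G ⊆ F) (hc : ∀ e ∈ G, ¬ Centre ψ e.1)
    (hm : ∀ e ∈ G, Mid R w e.1 e.2) : G.card ≤ 4 * R.card := by
  classical
  apply Finset.card_le_mul_card_image_of_maps_to (f := fun e => e.2) (t := R)
  · intro e he
    exact (mem_Nr.1 (hF.snd e (hG he))).1
  · intro r hr
    set S := G.filter (fun e => e.2 = r) with hS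
    have hSG : ∀ e ∈ S, e ∈ G ∧ e.2 = r := fun e he => Finset.mem_filter.1 he
    -- classes
    have h2 : (S.image (fun e => Nr R e.1)).card ≤ 2 := by
      by_contra hlt
      push Not at hlt
      obtain ⟨N0, h0, N1, h1, N2, h2, n01, n02, n12⟩ := Finset.two_lt_card.1 hlt
      obtain ⟨e0, he0, rfl⟩ := Finset.mem_image.1 h0
      obtain ⟨e1, he1, rfl⟩ := Finset.mem_image.1 h1
      obtain ⟨e2, he2, rfl⟩ := Finset.mem_image.1 h2
      have q0 := hSG e0 he0
      have q1 := hSG e1 he1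
      have q2 := hSG e2 he2
      refine mid_three hψ hR (w := w) (r := r) ![e0.1, e1.1, e2.1] ?_ ?_ ?_
      · intro i
        fin_cases i
        · exact hc e0 q0.1
        · exact hc e1 q1.1
        · exact hc e2 q2.1
      · intro i
        fin_cases i
        · show Mid R w e0.1 r
          rw [← q0.2]; exact hm e0 q0.1
        · show Mid R w e1.1 r
          rw [← q1.2]; exact hm e1 q1.1
        · show Mid R w e2.1 r
          rw [← q2.2]; exact hm e2 q2.1
      · intro i j hij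
        fin_cases i <;> fin_cases j <;> first
          | exact absurd rfl hij
          | exact n01
          | exact n02
          | exact n12
          | exact n01.symm
          | exact n02.symm
          | exact n12.symm
    have h3 : S.card ≤ 2 * (S.image (fun e => Nr R e.1)).card := by
      apply Finset.card_le_mul_card_image
      intro N hN
      by_contra hlt
      push Not at hlt
      obtain ⟨e0, h0, e1, h1, e2, h2, n01, n02, n12⟩ := Finset.two_lt_card.1 hlt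
      obtain ⟨k0, l0⟩ := Finset.mem_filter.1 h0
      obtain ⟨k1, l1⟩ := Finset.mem_filter.1 h1
      obtain ⟨k2, l2⟩ := Finset.mem_filter.1 h2
      have q0 := hSG e0 k0
      have q1 := hSG e1 k1
      have q2 := hSG e2 k2
      have m0 : Mid R w e0.1 r := by rw [← q0.2]; exact hm e0 q0.1
      have m1 : Mid R w e1.1 r := by rw [← q1.2]; exact hm e1 q1.1
      have m2 : Mid R w e2.1 r := by rw [← q2.2]; exact hm e2 q2.1
      obtain ⟨hr0, ⟨r1, hr1, hl1⟩, ⟨r2, hr2, hl2⟩⟩ := m0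
      have t1 : r1 ≠ r := by rintro rfl; exact lt_irrefl _ hl1
      have t2 : r2 ≠ r := by rintro rfl; exact lt_irrefl _ hl2
      have t3 : r1 ≠ r2 := by rintro rfl; exact lt_asymm hl1 hl2
      have hN1 : Nr R e1.1 = Nr R e0.1 := by rw [l1, l0]
      have hN2 : Nr R e2.1 = Nr R e0.1 := by rw [l2, l0]
      obtain ⟨a, c, ha, hac⟩ := class_dep hψ hR (hc e0 q0.1) (hc e1 q1.1) t1 t2 t3 hr0 hr1 hr2
        (by rw [hN1]; exact hr0) (by rw [hN1]; exact hr1) (by rw [hN1]; exact hr2)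
      obtain ⟨a', c', ha', hac'⟩ := class_dep hψ hR (hc e0 q0.1) (hc e2 q2.1) t1 t2 t3 hr0 hr1 hr2
        (by rw [hN2]; exact hr0) (by rw [hN2]; exact hr1) (by rw [hN2]; exact hr2)
      have f0 := hG q0.1
      have f1 := hG q1.1
      have f2 := hG q2.1
      have d1 : dist e1.1 r = dist e0.1 r := by
        apply le_antisymm
        · have := hF.near e1 f1 e0.1 (hF.fst e0 f0)
          rwa [q1.2] at this
        · have := hF.near e0 f0 e1.1 (hF.fst e1 f1)
          rwa [q0.2] at this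
      have d2 : dist e2.1 r = dist e0.1 r := by
        apply le_antisymm
        · have := hF.near e2 f2 e0.1 (hF.fst e0 f0)
          rwa [q2.2] at this
        · have := hF.near e0 f0 e2.1 (hF.fst e2 f2)
          rwa [q0.2] at this
      refine class_two hac hac' ?_ ?_ ?_ d1 d2
      · intro h; exact n01 (Prod.ext h.symm (by rw [q0.2, q1.2]))
      · intro h; exact n02 (Prod.ext h.symm (by rw [q0.2, q2.2]))
      · intro h; exact n12 (Prod.ext h (by rw [q1.2, q2.2]))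
    omega

/-- The number of mutual nearest pairs between a set `B` and a set `R` on a plane or sphere is
linear. -/
lemma card_mutual {R B : Finset E} {F : Finset (E × E)} (hF : Mutual R B F) {ψ : V} {γ : ℝ}
    (hψ : ψ ≠ 0) (hR : ∀ r ∈ R, ⟪ψ, lift r⟫_ℝ + γ = 0) :
    F.card ≤ 5 * R.card + 2 * B.card := by
  classical
  obtain ⟨w, hw⟩ := exists_injective_functional R
  set F1 := F.filter (fun e => Centre ψ e.1) with hF1
  set F2 := F.filter (fun e => ∀ r1 ∈ Nr R e.1, ⟪w, e.2⟫_ℝ ≤ ⟪w, r1⟫_ℝ) with hF2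
  set F3 := F.filter (fun e => ∀ r1 ∈ Nr R e.1, ⟪w, r1⟫_ℝ ≤ ⟪w, e.2⟫_ℝ) with hF3
  set F4 := F.filter (fun e => ¬ Centre ψ e.1 ∧ Mid R w e.1 e.2) with hF4
  have hsub : F ⊆ F1 ∪ F2 ∪ F3 ∪ F4 := by
    intro e he
    by_cases h1 : Centre ψ e.1
    · simp only [Finset.mem_union]
      exact Or.inl (Or.inl (Or.inl (Finset.mem_filter.2 ⟨he, h1⟩)))
    by_cases h2 : ∀ r1 ∈ Nr R e.1, ⟪w, e.2⟫_ℝ ≤ ⟪w, r1⟫_ℝ
    · simp only [Finset.mem_union]
      exact Or.inl (Or.inl (Or.inr (Finset.mem_filter.2 ⟨he, h2⟩)))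
    by_cases h3 : ∀ r1 ∈ Nr R e.1, ⟪w, r1⟫_ℝ ≤ ⟪w, e.2⟫_ℝ
    · simp only [Finset.mem_union]
      exact Or.inl (Or.inr (Finset.mem_filter.2 ⟨he, h3⟩))
    push Not at h2 h3
    obtain ⟨r1, hr1, hl1⟩ := h2
    obtain ⟨r2, hr2, hl2⟩ := h3
    simp only [Finset.mem_union]
    exact Or.inr (Finset.mem_filter.2 ⟨he, h1, hF.snd e he, ⟨r1, hr1, hl1⟩, ⟨r2, hr2, hl2⟩⟩)
  have c1 := card_centre hF ψ F1 (Finset.filter_subset _ _)
    (fun e he => (Finset.mem_filter.1 he).2)
  have c2 := card_min hF hw F2 (Finset.filter_subset _ _)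
    (fun e he => (Finset.mem_filter.1 he).2)
  have c3 := card_max hF hw F3 (Finset.filter_subset _ _)
    (fun e he => (Finset.mem_filter.1 he).2)
  have c4 := card_mid hF hψ hR (w := w) F4 (Finset.filter_subset _ _)
    (fun e he => (Finset.mem_filter.1 he).2.1) (fun e he => (Finset.mem_filter.1 he).2.2)
  have h := Finset.card_le_card hsub
  have u1 := Finset.card_union_le (F1 ∪ F2 ∪ F3) F4
  have u2 := Finset.card_union_le (F1 ∪ F2) F3
  have u3 := Finset.card_union_le F1 F2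
  omega

end Helper5.RNG
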