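import Pool.Agent.helper5.RNG.Lift

/-!
# Mutual nearest pairs between a set on a plane or sphere and an arbitrary set
-/

namespace Helper5.RNG

open scoped InnerProductSpace
open Finset

/-- The points of `R` nearest to `b`. -/
noncomputable def Nr (R : Finset E) (b : E) : Finset E := by
  classical exact R.filter (fun r => ∀ r' ∈ R, dist b r ≤ dist b r')

lemma mem_Nr {R : Finset E} {b r : E} : r ∈ Nr R b ↔ r ∈ R ∧ ∀ r' ∈ R, dist b r ≤ dist b r' := by
  classical
  unfold Nr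
  rw [Finset.mem_filter]

lemma Nr_dist_eq {R : Finset E} {b r r' : E} (h : r ∈ Nr R b) (h' : r' ∈ Nr R b) :
    dist b r = dist b r' :=
  le_antisymm ((mem_Nr.1 h).2 _ (mem_Nr.1 h').1) ((mem_Nr.1 h').2 _ (mem_Nr.1 h).1)

lemma nb_nonneg {R : Finset E} {b r x : E} (h : r ∈ Nr R b) (hx : x ∈ R) :
    0 ≤ ⟪nb b, lift x - lift r⟫_ℝ := by
  rw [nb_lift_sub]
  have := (mem_Nr.1 h).2 x hx
  have h0 : 0 ≤ dist b r := dist_nonneg
  nlinarith

lemma mem_of_nb_zero {R : Finset E} {b r x : E} (h : r ∈ Nr R b) (hx : x ∈ R)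
    (h0 : ⟪nb b, lift x - lift r⟫_ℝ = 0) : x ∈ Nr R b := by
  rw [nb_lift_sub] at h0
  have h1 : dist b x = dist b r := by
    have : dist b x ^ 2 = dist b r ^ 2 := by linarith
    exact (pow_left_inj₀ dist_nonneg dist_nonneg (by norm_num)).1 this
  rw [mem_Nr]
  refine ⟨hx, fun r' hr' => ?_⟩
  rw [h1]
  exact (mem_Nr.1 h).2 r' hr'

lemma nb_zero_of_mem {R : Finset E} {b r x : E} (h : r ∈ Nr R b) (hx : x ∈ Nr R b) :
    ⟪nb b, lift x - lift r⟫_ℝ = 0 := by
  rw [nb_lift_sub, Nr_dist_eq h hx]; ring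

/-- `b` is the centre of the sphere (a degenerate case). -/
def Centre (ψ : V) (b : E) : Prop := ∃ μ : ℝ, nb b = μ • ψ

lemma centre_unique {ψ : V} {b b' : E} (h : Centre ψ b) (h' : Centre ψ b') : b = b' := by
  obtain ⟨μ, hμ⟩ := h
  obtain ⟨μ', hμ'⟩ := h'
  have e3 := congrArg (fun v : V => v 3) hμ
  have e3' := congrArg (fun v : V => v 3) hμ'
  have e0 := congrArg (fun v : V => v 0) hμ
  have e0' := congrArg (fun v : V => v 0) hμ'
  have e1 := congrArg (fun v : V => v 1) hμ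
  have e1' := congrArg (fun v : V => v 1) hμ'
  have e2 := congrArg (fun v : V => v 2) hμ
  have e2' := congrArg (fun v : V => v 2) hμ'
  simp only [PiLp.smul_apply, nb_0, nb_1, nb_2, nb_3, smul_eq_mul] at *
  have hψ : ψ 3 ≠ 0 := by
    intro h
    rw [h, mul_zero] at e3
    exact one_ne_zero e3
  have hm : μ = μ' := by
    have : μ * ψ 3 = μ' * ψ 3 := by rw [← e3, ← e3']
    exact mul_right_cancel₀ hψ this
  subst hm
  apply ext3 <;> linarith

/-- If two non-central points share three nearest points, the second functional is a combination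
of the first one and of the equation of the surface. -/
lemma class_dep {R : Finset E} {ψ : V} {γ : ℝ} (hψ : ψ ≠ 0)
    (hR : ∀ r ∈ R, ⟪ψ, lift r⟫_ℝ + γ = 0)
    {b b' r r1 r2 : E} (hb : ¬ Centre ψ b) (hb' : ¬ Centre ψ b')
    (h1 : r1 ≠ r) (h2 : r2 ≠ r) (h12 : r1 ≠ r2)
    (m : r ∈ Nr R b) (m1 : r1 ∈ Nr R b) (m2 : r2 ∈ Nr R b)
    (m' : r ∈ Nr R b') (m1' : r1 ∈ Nr R b') (m2' : r2 ∈ Nr R b') :
    ∃ a c : ℝ, a ≠ 0 ∧ nb b' = a • nb b + c • ψ := by
  have hli := lift_indep h1 h2 h12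
  have hψs : ∀ x ∈ R, ⟪ψ, lift x - lift r⟫_ℝ = 0 := by
    intro x hx
    rw [inner_sub_right]
    have e1 := hR x hx
    have e2 := hR r (mem_Nr.1 m).1
    linarith
  obtain ⟨c, hc, hsum⟩ := dep_of_orth hli ![ψ, nb b, nb b']
    (by
      intro i
      fin_cases i
      · show ⟪_, ψ⟫_ℝ = 0
        rw [real_inner_comm]; exact hψs r1 (mem_Nr.1 m1).1
      · show ⟪_, nb b⟫_ℝ = 0
        rw [real_inner_comm]; exact nb_zero_of_mem m m1
      · show ⟪_, nb b'⟫_ℝ = 0
        rw [real_inner_comm]; exact nb_zero_of_mem m' m1')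
    (by
      intro i
      fin_cases i
      · show ⟪_, ψ⟫_ℝ = 0
        rw [real_inner_comm]; exact hψs r2 (mem_Nr.1 m2).1
      · show ⟪_, nb b⟫_ℝ = 0
        rw [real_inner_comm]; exact nb_zero_of_mem m m2
      · show ⟪_, nb b'⟫_ℝ = 0
        rw [real_inner_comm]; exact nb_zero_of_mem m' m2')
  rw [Fin.sum_univ_three] at hsum
  simp only [Matrix.cons_val_zero, Matrix.cons_val_one, Matrix.cons_val] at hsum
  have hc2 : c 2 ≠ 0 := by
    intro h
    rw [h, zero_smul, add_zero] at hsum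
    have hc1 : c 1 ≠ 0 := by
      intro h1
      rw [h1, zero_smul, add_zero] at hsum
      have hc0 : c 0 = 0 := by
        rcases smul_eq_zero.1 hsum with h0 | h0
        · exact h0
        · exact absurd h0 hψ
      apply hc
      ext i
      fin_cases i <;> simp [hc0, h1, h]
    apply hb
    refine ⟨-(c 0 / c 1), ?_⟩
    have : c 1 • nb b = -(c 0 • ψ) := by
      rw [eq_neg_iff_add_eq_zero, add_comm]; exact hsum
    calc nb b = (c 1)⁻¹ • (c 1 • nb b) := by rw [smul_smul, inv_mul_cancel₀ hc1, one_smul]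
      _ = -(c 0 / c 1) • ψ := by
        rw [this, smul_neg, smul_smul, neg_smul]
        congr 2
        field_simp
  have hc1 : c 1 ≠ 0 := by
    intro h
    rw [h, zero_smul, add_zero] at hsum
    apply hb'
    refine ⟨-(c 0 / c 2), ?_⟩
    have : c 2 • nb b' = -(c 0 • ψ) := by
      rw [eq_neg_iff_add_eq_zero, add_comm]; exact hsum
    calc nb b' = (c 2)⁻¹ • (c 2 • nb b') := by rw [smul_smul, inv_mul_cancel₀ hc2, one_smul]
      _ = -(c 0 / c 2) • ψ := by
        rw [this, smul_neg, smul_smul, neg_smul]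
        congr 2
        field_simp
  refine ⟨-(c 1 / c 2), -(c 0 / c 2), ?_, ?_⟩
  · exact neg_ne_zero.2 (div_ne_zero hc1 hc2)
  · have : c 2 • nb b' = -(c 1 • nb b + c 0 • ψ) := by
      rw [eq_neg_iff_add_eq_zero, ← hsum]; abel
    calc nb b' = (c 2)⁻¹ • (c 2 • nb b') := by rw [smul_smul, inv_mul_cancel₀ hc2, one_smul]
      _ = -(c 1 / c 2) • nb b + -(c 0 / c 2) • ψ := by
        rw [this, smul_neg, smul_add, smul_smul, smul_smul, neg_smul, neg_smul, neg_add]
        congr 2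
        · congr 1; field_simp
        · congr 1; field_simp

/-- Under the conclusion of `class_dep` the two points have the same nearest points. -/
lemma class_Nr {R : Finset E} {ψ : V} {γ : ℝ}
    (hR : ∀ r ∈ R, ⟪ψ, lift r⟫_ℝ + γ = 0) {b b' r : E}
    (m : r ∈ Nr R b) (m' : r ∈ Nr R b') {a c : ℝ} (ha : a ≠ 0)
    (h : nb b' = a • nb b + c • ψ) : Nr R b' = Nr R b := by
  have hψs : ∀ x ∈ R, ⟪ψ, lift x - lift r⟫_ℝ = 0 := by
    intro x hx
    rw [inner_sub_right]
    have e1 := hR x hx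
    have e2 := hR r (mem_Nr.1 m).1
    linarith
  have key : ∀ x ∈ R, ⟪nb b', lift x - lift r⟫_ℝ = a * ⟪nb b, lift x - lift r⟫_ℝ := by
    intro x hx
    rw [h, inner_add_left, real_inner_smul_left, real_inner_smul_left, hψs x hx, mul_zero, add_zero]
  ext x
  constructor
  · intro hx
    have hxR := (mem_Nr.1 hx).1
    apply mem_of_nb_zero m hxR
    have := nb_zero_of_mem m' hx
    rw [key x hxR] at this
    rcases mul_eq_zero.1 this with h | h
    · exact absurd h ha
    · exact h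
  · intro hx
    have hxR := (mem_Nr.1 hx).1
    apply mem_of_nb_zero m' hxR
    rw [key x hxR, nb_zero_of_mem m hx, mul_zero]

/-- Three distinct points of one class cannot be equidistant from a point. -/
lemma class_two {ψ : V} {b b' b'' r : E} {a c a' c' : ℝ}
    (h : nb b' = a • nb b + c • ψ) (h' : nb b'' = a' • nb b + c' • ψ)
    (h1 : b' ≠ b) (h2 : b'' ≠ b) (h3 : b' ≠ b'')
    (d1 : dist b' r = dist b r) (d2 : dist b'' r = dist b r) : False := by
  have e0 := congrArg (fun v : V => v 0) h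
  have e1 := congrArg (fun v : V => v 1) h
  have e2 := congrArg (fun v : V => v 2) h
  have e3 := congrArg (fun v : V => v 3) h
  have f0 := congrArg (fun v : V => v 0) h'
  have f1 := congrArg (fun v : V => v 1) h'
  have f2 := congrArg (fun v : V => v 2) h'
  have f3 := congrArg (fun v : V => v 3) h'
  simp only [PiLp.smul_apply, PiLp.add_apply, nb_0, nb_1, nb_2, nb_3, smul_eq_mul,
    mul_one] at e0 e1 e2 e3 f0 f1 f2 f3
  -- direction vector
  set u0 := -(ψ 0 + 2 * ψ 3 * b 0) / 2 with hu0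
  set u1 := -(ψ 1 + 2 * ψ 3 * b 1) / 2 with hu1
  set u2 := -(ψ 2 + 2 * ψ 3 * b 2) / 2 with hu2
  have ha : a = 1 - c * ψ 3 := by linarith
  have ha' : a' = 1 - c' * ψ 3 := by linarith
  have g0 : b' 0 = b 0 + c * u0 := by rw [hu0]; rw [ha] at e0; linarith
  have g1 : b' 1 = b 1 + c * u1 := by rw [hu1]; rw [ha] at e1; linarith
  have g2 : b' 2 = b 2 + c * u2 := by rw [hu2]; rw [ha] at e2; linarith
  have k0 : b'' 0 = b 0 + c' * u0 := by rw [hu0]; rw [ha'] at f0; linarith
  have k1 : b'' 1 = b 1 + c' * u1 := by rw [hu1]; rw [ha'] at f1; linarith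
  have k2 : b'' 2 = b 2 + c' * u2 := by rw [hu2]; rw [ha'] at f2; linarith
  have hc : c ≠ 0 := by
    rintro rfl
    apply h1
    apply ext3
    · rw [g0]; ring
    · rw [g1]; ring
    · rw [g2]; ring
  have hc' : c' ≠ 0 := by
    rintro rfl
    apply h2
    apply ext3
    · rw [k0]; ring
    · rw [k1]; ring
    · rw [k2]; ring
  have hcc : c - c' ≠ 0 := by
    intro hcc
    have : c = c' := by linarith
    subst this
    apply h3
    apply ext3
    · rw [k0, g0]
    · rw [k1, g1]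
    · rw [k2, g2]
  have s1 : dist b' r ^ 2 = dist b r ^ 2 := by rw [d1]
  have s2 : dist b'' r ^ 2 = dist b r ^ 2 := by rw [d2]
  rw [dist3_sq, dist3_sq, g0, g1, g2] at s1
  rw [dist3_sq, dist3_sq, k0, k1, k2] at s2
  set U := u0 ^ 2 + u1 ^ 2 + u2 ^ 2 with hU
  set W := u0 * (b 0 - r 0) + u1 * (b 1 - r 1) + u2 * (b 2 - r 2) with hW
  have t1 : c * (c * U + 2 * W) = 0 := by rw [hU, hW]; linear_combination s1
  have t2 : c' * (c' * U + 2 * W) = 0 := by rw [hU, hW]; linear_combination s2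
  have t1' : c * U + 2 * W = 0 := (mul_eq_zero.1 t1).resolve_left hc
  have t2' : c' * U + 2 * W = 0 := (mul_eq_zero.1 t2).resolve_left hc'
  have t3 : (c - c') * U = 0 := by linear_combination t1' - t2'
  have t4 : U = 0 := (mul_eq_zero.1 t3).resolve_left hcc
  have q0 := sq_nonneg u0
  have q1 := sq_nonneg u1
  have q2 := sq_nonneg u2
  rw [hU] at t4
  have z0 : u0 = 0 := pow_eq_zero_iff (two_ne_zero) |>.1 (by linarith : u0 ^ 2 = 0)
  have z1 : u1 = 0 := pow_eq_zero_iff (two_ne_zero) |>.1 (by linarith : u1 ^ 2 = 0)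
  have z2 : u2 = 0 := pow_eq_zero_iff (two_ne_zero) |>.1 (by linarith : u2 ^ 2 = 0)
  apply h1
  apply ext3
  · rw [g0, z0]; ring
  · rw [g1, z1]; ring
  · rw [g2, z2]; ring

/-- A witness for `r` being a middle point of the nearest set of `b`. -/
def Mid (R : Finset E) (w : E) (b r : E) : Prop :=
  r ∈ Nr R b ∧ (∃ r1 ∈ Nr R b, ⟪w, r1⟫_ℝ < ⟪w, r⟫_ℝ) ∧ (∃ r2 ∈ Nr R b, ⟪w, r⟫_ℝ < ⟪w, r2⟫_ℝ)

/-- The horizontal direction of a middle pair. -/
lemma mid_dir {R : Finset E} {ψ : V} {γ : ℝ} (hR : ∀ r ∈ R, ⟪ψ, lift r⟫_ℝ + γ = 0) {w b r : E}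
    (h : Mid R w b r) :
    ∃ r1 ∈ Nr R b, ∃ r2 ∈ Nr R b, ⟪w, r1⟫_ℝ < ⟪w, r⟫_ℝ ∧ ⟪w, r⟫_ℝ < ⟪w, r2⟫_ℝ ∧
      ∃ u : V, ⟪ψ, u⟫_ℝ = 0 ∧ ⟪hor w, u⟫_ℝ = 0 ∧ ⟪nb b, u⟫_ℝ = 0 ∧
        ∀ b' : E, r ∈ Nr R b' → 0 ≤ ⟪nb b', u⟫_ℝ ∧
          (⟪nb b', u⟫_ℝ = 0 → r1 ∈ Nr R b' ∧ r2 ∈ Nr R b') := by
  obtain ⟨hr, ⟨r1, hr1, h1⟩, ⟨r2, hr2, h2⟩⟩ := h
  refine ⟨r1, hr1, r2, hr2, h1, h2, ?_⟩
  have hψs : ∀ x ∈ R, ⟪ψ, lift x - lift r⟫_ℝ = 0 := by
    intro x hx
    rw [inner_sub_right]
    have e1 := hR x hx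
    have e2 := hR r (mem_Nr.1 hr).1
    linarith
  set p := ⟪w, r⟫_ℝ - ⟪w, r1⟫_ℝ with hp
  set q := ⟪w, r2⟫_ℝ - ⟪w, r⟫_ℝ with hq
  have hp0 : 0 < p := by rw [hp]; linarith
  have hq0 : 0 < q := by rw [hq]; linarith
  refine ⟨q • (lift r1 - lift r) + p • (lift r2 - lift r), ?_, ?_, ?_, ?_⟩
  · rw [inner_add_right, real_inner_smul_right, real_inner_smul_right, hψs _ (mem_Nr.1 hr1).1,
      hψs _ (mem_Nr.1 hr2).1]; ring
  · rw [inner_add_right, real_inner_smul_right, real_inner_smul_right, hor_lift_sub,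
      hor_lift_sub]
    rw [hp, hq]; ring
  · rw [inner_add_right, real_inner_smul_right, real_inner_smul_right, nb_zero_of_mem hr hr1,
      nb_zero_of_mem hr hr2]; ring
  · intro b' hb'
    have i1 := nb_nonneg hb' (mem_Nr.1 hr1).1
    have i2 := nb_nonneg hb' (mem_Nr.1 hr2).1
    rw [inner_add_right, real_inner_smul_right, real_inner_smul_right]
    refine ⟨by positivity, fun h0 => ?_⟩
    have j1 : 0 ≤ q * ⟪nb b', lift r1 - lift r⟫_ℝ := by positivity
    have j2 : 0 ≤ p * ⟪nb b', lift r2 - lift r⟫_ℝ := by positivity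
    have k1 : q * ⟪nb b', lift r1 - lift r⟫_ℝ = 0 := by linarith
    have k2 : p * ⟪nb b', lift r2 - lift r⟫_ℝ = 0 := by linarith
    exact ⟨mem_of_nb_zero hb' (mem_Nr.1 hr1).1 ((mul_eq_zero.1 k1).resolve_left hq0.ne'),
      mem_of_nb_zero hb' (mem_Nr.1 hr2).1 ((mul_eq_zero.1 k2).resolve_left hp0.ne')⟩

/-- At most two classes of non-central points have a given red point as a middle point. -/
lemma mid_three {R : Finset E} {ψ : V} {γ : ℝ} (hψ : ψ ≠ 0)
    (hR : ∀ r ∈ R, ⟪ψ, lift r⟫_ℝ + γ = 0) {w r : E} (b : Fin 3 → E)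
    (hc : ∀ i, ¬ Centre ψ (b i)) (hm : ∀ i, Mid R w (b i) r)
    (hne : ∀ i j, i ≠ j → Nr R (b i) ≠ Nr R (b j)) : False := by
  choose r1 hr1 r2 hr2 hl1 hl2 u hu1 hu2 hu3 hu4 using fun i => mid_dir hR (hm i)
  -- independence of ψ and hor w
  have hψw : LinearIndependent ℝ ![ψ, hor w] := by
    rw [LinearIndependent.pair_iff]
    intro s t h
    have h1 := congrArg (fun v : V => ⟪v, lift (r1 0) - lift r⟫_ℝ) h
    simp only [inner_add_left, real_inner_smul_left, inner_zero_left] at h1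
    rw [hor_lift_sub] at h1
    have h2 : ⟪ψ, lift (r1 0) - lift r⟫_ℝ = 0 := by
      rw [inner_sub_right]
      have e1 := hR _ (mem_Nr.1 (hr1 0)).1
      have e2 := hR r (mem_Nr.1 (hm 0).1).1
      linarith
    rw [h2, mul_zero, zero_add] at h1
    have ht : t = 0 := by
      rcases mul_eq_zero.1 h1 with h | h
      · exact h
      · have := hl1 0; linarith
    subst ht
    rw [zero_smul, add_zero] at h
    exact ⟨(smul_eq_zero.1 h).resolve_right hψ, rfl⟩
  obtain ⟨c, hc0, hsum⟩ := dep_of_orth hψw u hu1 hu2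
  -- positivity
  have hpos : ∀ i j, i ≠ j → 0 < ⟪nb (b i), u j⟫_ℝ := by
    intro i j hij
    obtain ⟨h0, h1⟩ := hu4 j (b i) (hm i).1
    refine lt_of_le_of_ne h0 (fun h => ?_)
    obtain ⟨m1, m2⟩ := h1 h.symm
    have n1 : r1 j ≠ r := by rintro h; have := hl1 j; rw [h] at this; exact lt_irrefl _ this
    have n2 : r2 j ≠ r := by rintro h; have := hl2 j; rw [h] at this; exact lt_irrefl _ this
    have n3 : r1 j ≠ r2 j := by
      intro h; have a1 := hl1 j; have a2 := hl2 j; rw [h] at a1; exact lt_asymm a1 a2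
    obtain ⟨a, c, ha, hac⟩ := class_dep hψ hR (hc i) (hc j) n1 n2 n3 (hm i).1 m1 m2 (hm j).1
      (hr1 j) (hr2 j)
    exact hne i j hij (class_Nr hR (hm i).1 (hm j).1 ha hac).symm
  have hrel : ∀ i, ∑ j, c j * ⟪nb (b i), u j⟫_ℝ = 0 := by
    intro i
    have := congrArg (fun v : V => ⟪nb (b i), v⟫_ℝ) hsum
    simp only [inner_sum, real_inner_smul_right, inner_zero_right] at this
    exact this
  have e0 := hrel 0
  have e1 := hrel 1
  have e2 := hrel 2
  rw [Fin.sum_univ_three] at e0 e1 e2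
  rw [hu3 0, mul_zero, zero_add] at e0
  rw [hu3 1, mul_zero, add_zero] at e1
  rw [hu3 2, mul_zero, add_zero] at e2
  have p01 := hpos 0 1 (by decide)
  have p02 := hpos 0 2 (by decide)
  have p10 := hpos 1 0 (by decide)
  have p12 := hpos 1 2 (by decide)
  have p20 := hpos 2 0 (by decide)
  have p21 := hpos 2 1 (by decide)
  have hall : c 0 = 0 ∧ c 1 = 0 ∧ c 2 = 0 := by
    rcases lt_trichotomy (c 0) 0 with h | h | h
    · have h2 : 0 < c 2 := by
        by_contra h2
        push Not at h2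
        have := mul_neg_of_neg_of_pos h p10
        have := mul_nonpos_of_nonpos_of_nonneg h2 p12.le
        linarith
      have h1 : 0 < c 1 := by
        by_contra h1
        push Not at h1
        have := mul_neg_of_neg_of_pos h p20
        have := mul_nonpos_of_nonpos_of_nonneg h1 p21.le
        linarith
      have := mul_pos h1 p01
      have := mul_pos h2 p02
      linarith
    · have h2 : c 2 = 0 := by
        rw [h, zero_mul, zero_add] at e1
        exact (mul_eq_zero.1 e1).resolve_right p12.ne'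
      have h1 : c 1 = 0 := by
        rw [h, zero_mul, zero_add] at e2
        exact (mul_eq_zero.1 e2).resolve_right p21.ne'
      exact ⟨h, h1, h2⟩
    · have h2 : c 2 < 0 := by
        by_contra h2
        push Not at h2
        have := mul_pos h p10
        have := mul_nonneg h2 p12.le
        linarith
      have h1 : c 1 < 0 := by
        by_contra h1
        push Not at h1
        have := mul_pos h p20
        have := mul_nonneg h1 p21.le
        linarith
      have := mul_neg_of_neg_of_pos h1 p01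
      have := mul_neg_of_neg_of_pos h2 p02
      linarith
  apply hc0
  ext i
  fin_cases i
  · exact hall.1
  · exact hall.2.1
  · exact hall.2.2

end Helper5.RNG
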