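import Pool.Agent.helper5.RNG.Cells

/-!
# The relative neighbourhood graph of points on few planes and spheres
-/

namespace Helper5.RNG

open scoped InnerProductSpace
open Finset
open Helper5.RNGraph

lemma surface {S : Set E} (h : IsPlane S ∨ IsSphere S) :
    ∃ (ψ : V) (γ : ℝ), ψ ≠ 0 ∧ ∀ r ∈ S, ⟪ψ, lift r⟫_ℝ + γ = 0 := by
  rcases h with ⟨a, ha, c, rfl⟩ | ⟨o, ρ, rfl⟩
  · refine ⟨hor a, -c, ?_, ?_⟩
    · intro h
      apply ha
      have h0 := congrArg (fun v : V => v 0) h
      have h1 := congrArg (fun v : V => v 1) h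
      have h2 := congrArg (fun v : V => v 2) h
      exact ext3 h0 h1 h2
    · intro r hr
      have hr' : ⟪a, r⟫_ℝ = c := hr
      rw [inner3] at hr'
      rw [inner4, hor_0, hor_1, hor_2, hor_3, lift_0, lift_1, lift_2]
      linarith
  · refine ⟨nb o, (o 0 ^ 2 + o 1 ^ 2 + o 2 ^ 2) - ρ ^ 2, ?_, ?_⟩
    · intro h
      have h3 := congrArg (fun v : V => v 3) h
      exact one_ne_zero (show (1 : ℝ) = 0 from h3)
    · intro r hr
      have hr' : dist r o = ρ := hr
      have h2 := dist3_sq r o
      rw [hr'] at h2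
      rw [inner4, nb_0, nb_1, nb_2, nb_3, lift_0, lift_1, lift_2, lift_3]
      linarith

lemma edgeSet_subset (P : Finset E) :
    (relNbhd P).edgeSet ⊆ (fun e : E × E => s(e.1, e.2)) '' (P ×ˢ P : Finset (E × E)) := by
  intro e he
  induction e using Sym2.ind with
  | _ p q =>
    have h : (relNbhd P).Adj p q := he
    exact ⟨(p, q), Finset.mem_coe.2 (Finset.mem_product.2 ⟨h.1, h.2.1⟩), rfl⟩

lemma edgeSet_finite (P : Finset E) : (relNbhd P).edgeSet.Finite :=
  ((Finset.finite_toSet _).image _).subset (edgeSet_subset P)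

lemma numEdges_le_sq (P : Finset E) : numEdges P ≤ P.card * P.card := by
  unfold numEdges
  refine (Set.ncard_le_ncard (edgeSet_subset P) ((Finset.finite_toSet _).image _)).trans ?_
  refine (Set.ncard_image_le (Finset.finite_toSet _)).trans ?_
  rw [Set.ncard_coe_finset, Finset.card_product]

lemma numEdges_le_e3 (P : Finset E) : numEdges P ≤ e3 P.card := by
  unfold e3
  apply le_csSup
  · refine ⟨P.card * P.card, ?_⟩
    rintro m ⟨Q, hQ, rfl⟩
    have := numEdges_le_sq Q
    rwa [hQ] at this
  · exact ⟨P, rfl, rfl⟩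

theorem main (P : Finset E) (k : ℕ) (S : Fin k → Set E)
    (hS : ∀ i, IsPlane (S i) ∨ IsSphere (S i)) (P0 : Finset E) (hP0 : P0 ⊆ P)
    (hcov : ∀ p ∈ P, p ∉ P0 → ∃ i, p ∈ S i) :
    numEdges P ≤ 637875 * k * P.card + e3 P0.card := by
  classical
  set T : Finset (E × E) := Finset.univ.biUnion (fun i => pairs P (S i)) with hT
  have hsub : (relNbhd P).edgeSet ⊆
      ((fun e : E × E => s(e.1, e.2)) '' (T : Set (E × E))) ∪ (relNbhd P0).edgeSet := by
    intro e he
    induction e using Sym2.ind with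
    | _ p q =>
      have h : (relNbhd P).Adj p q := he
      by_cases hp : p ∈ P0
      · by_cases hq : q ∈ P0
        · right
          exact (RNG_mono hP0 h hp hq : (relNbhd P0).Adj p q)
        · left
          obtain ⟨i, hi⟩ := hcov q h.2.1 hq
          refine ⟨(p, q), ?_, rfl⟩
          rw [hT]
          exact Finset.mem_coe.2 (Finset.mem_biUnion.2 ⟨i, Finset.mem_univ _,
            mem_pairs.2 ⟨h, hi⟩⟩)
      · left
        obtain ⟨i, hi⟩ := hcov p h.1 hp
        refine ⟨(q, p), ?_, Sym2.eq_swap⟩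
        rw [hT]
        exact Finset.mem_coe.2 (Finset.mem_biUnion.2 ⟨i, Finset.mem_univ _,
          mem_pairs.2 ⟨h.symm, hi⟩⟩)
  have hTc : T.card ≤ 637875 * k * P.card := by
    rw [hT]
    refine Finset.card_biUnion_le.trans ?_
    calc ∑ i : Fin k, (pairs P (S i)).card ≤ ∑ i : Fin k, 637875 * P.card := by
          apply Finset.sum_le_sum
          intro i _
          obtain ⟨ψ, γ, hψ, h⟩ := surface (hS i)
          exact pairs_card P (S i) hψ h
      _ = 637875 * k * P.card := by
          rw [Finset.sum_const, Finset.card_univ, Fintype.card_fin, smul_eq_mul]; ring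
  have h0 : numEdges P0 ≤ e3 P0.card := numEdges_le_e3 P0
  have h1 : numEdges P ≤ ((fun e : E × E => s(e.1, e.2)) '' (T : Set (E × E))).ncard
      + numEdges P0 := by
    unfold numEdges
    refine (Set.ncard_le_ncard hsub ?_).trans (Set.ncard_union_le _ _)
    exact ((Finset.finite_toSet _).image _).union (edgeSet_finite P0)
  have h2 : ((fun e : E × E => s(e.1, e.2)) '' (T : Set (E × E))).ncard ≤ T.card := by
    refine (Set.ncard_image_le (Finset.finite_toSet _)).trans ?_
    rw [Set.ncard_coe_finset]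
  omega

end Helper5.RNG
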