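import Mathlib

/-!
# Lifting to the paraboloid and a dependency lemma
-/

namespace Helper5.RNG

open scoped InnerProductSpace

/-- Euclidean 3-space. -/
abbrev E := EuclideanSpace ℝ (Fin 3)
/-- Euclidean 4-space. -/
abbrev V := EuclideanSpace ℝ (Fin 4)

/-- The lift of a point of 3-space to the paraboloid in 4-space. -/
noncomputable def lift (x : E) : V := !₂[x 0, x 1, x 2, x 0 ^ 2 + x 1 ^ 2 + x 2 ^ 2]

/-- The functional of a centre `b`: `⟪nb b, lift x⟫ = |x|² - 2 b·x`. -/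
noncomputable def nb (b : E) : V := !₂[-2 * b 0, -2 * b 1, -2 * b 2, 1]

/-- A linear functional on 3-space, seen on 4-space. -/
noncomputable def hor (w : E) : V := !₂[w 0, w 1, w 2, 0]

lemma inner4 (a b : V) : ⟪a, b⟫_ℝ = a 0 * b 0 + a 1 * b 1 + a 2 * b 2 + a 3 * b 3 := by
  simp [PiLp.inner_apply, Fin.sum_univ_four]
  ring

lemma inner3 (a b : E) : ⟪a, b⟫_ℝ = a 0 * b 0 + a 1 * b 1 + a 2 * b 2 := by
  simp [PiLp.inner_apply, Fin.sum_univ_three]
  ring

lemma dist3_sq (a b : E) : dist a b ^ 2 = (a 0 - b 0) ^ 2 + (a 1 - b 1) ^ 2 + (a 2 - b 2) ^ 2 := by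
  rw [EuclideanSpace.dist_eq, Real.sq_sqrt (Finset.sum_nonneg fun i _ => sq_nonneg _)]
  simp [Fin.sum_univ_three, Real.dist_eq, sq_abs]

lemma lift_0 (x : E) : lift x 0 = x 0 := rfl
lemma lift_1 (x : E) : lift x 1 = x 1 := rfl
lemma lift_2 (x : E) : lift x 2 = x 2 := rfl
lemma lift_3 (x : E) : lift x 3 = x 0 ^ 2 + x 1 ^ 2 + x 2 ^ 2 := rfl
lemma nb_0 (x : E) : nb x 0 = -2 * x 0 := rfl
lemma nb_1 (x : E) : nb x 1 = -2 * x 1 := rfl
lemma nb_2 (x : E) : nb x 2 = -2 * x 2 := rfl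
lemma nb_3 (x : E) : nb x 3 = 1 := rfl
lemma hor_0 (x : E) : hor x 0 = x 0 := rfl
lemma hor_1 (x : E) : hor x 1 = x 1 := rfl
lemma hor_2 (x : E) : hor x 2 = x 2 := rfl
lemma hor_3 (x : E) : hor x 3 = 0 := rfl

lemma nb_lift_sub (b x r : E) :
    ⟪nb b, lift x - lift r⟫_ℝ = dist b x ^ 2 - dist b r ^ 2 := by
  rw [inner4, dist3_sq, dist3_sq]
  simp only [PiLp.sub_apply, lift_0, lift_1, lift_2, lift_3, nb_0, nb_1, nb_2, nb_3]
  ring

lemma hor_lift_sub (w x r : E) :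
    ⟪hor w, lift x - lift r⟫_ℝ = ⟪w, x⟫_ℝ - ⟪w, r⟫_ℝ := by
  rw [inner4, inner3, inner3]
  simp only [PiLp.sub_apply, lift_0, lift_1, lift_2, lift_3, hor_0, hor_1, hor_2, hor_3]
  ring

lemma ext3 {a b : E} (h0 : a 0 = b 0) (h1 : a 1 = b 1) (h2 : a 2 = b 2) : a = b := by
  ext i
  fin_cases i <;> assumption

lemma dist_pos_sq {a b : E} (h : a ≠ b) :
    0 < (a 0 - b 0) ^ 2 + (a 1 - b 1) ^ 2 + (a 2 - b 2) ^ 2 := by
  rw [← dist3_sq]
  exact pow_pos (dist_pos.2 h) 2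

/-- Lifted points are in general position: no three are collinear. -/
lemma lift_indep {r r1 r2 : E} (h1 : r1 ≠ r) (h2 : r2 ≠ r) (h12 : r1 ≠ r2) :
    LinearIndependent ℝ ![lift r1 - lift r, lift r2 - lift r] := by
  rw [LinearIndependent.pair_iff]
  intro s t h
  have e0 := congrArg (fun v : V => v 0) h
  have e1 := congrArg (fun v : V => v 1) h
  have e2 := congrArg (fun v : V => v 2) h
  have e3 := congrArg (fun v : V => v 3) h
  simp only [PiLp.add_apply, PiLp.smul_apply, PiLp.sub_apply, lift_0, lift_1, lift_2, lift_3,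
    smul_eq_mul, PiLp.zero_apply] at e0 e1 e2 e3
  have hp1 := dist_pos_sq h1
  have hp2 := dist_pos_sq h2
  have hp3 := dist_pos_sq h12
  set a0 := r1 0 - r 0 with ha0
  set a1 := r1 1 - r 1 with ha1
  set a2 := r1 2 - r 2 with ha2
  set b0 := r2 0 - r 0 with hb0
  set b1 := r2 1 - r 1 with hb1
  set b2 := r2 2 - r 2 with hb2
  have q : s * (a0 ^ 2 + a1 ^ 2 + a2 ^ 2) + t * (b0 ^ 2 + b1 ^ 2 + b2 ^ 2) = 0 := by
    have : s * (a0 ^ 2 + a1 ^ 2 + a2 ^ 2) + t * (b0 ^ 2 + b1 ^ 2 + b2 ^ 2)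
        = (s * (r1 0 ^ 2 + r1 1 ^ 2 + r1 2 ^ 2 - (r 0 ^ 2 + r 1 ^ 2 + r 2 ^ 2))
          + t * (r2 0 ^ 2 + r2 1 ^ 2 + r2 2 ^ 2 - (r 0 ^ 2 + r 1 ^ 2 + r 2 ^ 2)))
          - 2 * (r 0 * (s * a0 + t * b0) + r 1 * (s * a1 + t * b1)
            + r 2 * (s * a2 + t * b2)) := by
      rw [ha0, ha1, ha2, hb0, hb1, hb2]; ring
    rw [this, e3, e0, e1, e2]; ring
  -- (s+t) s |r1 - r2|^2 combination
  have key : s * t * ((r1 0 - r2 0) ^ 2 + (r1 1 - r2 1) ^ 2 + (r1 2 - r2 2) ^ 2) = 0 := by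
    have hx : r1 0 - r2 0 = a0 - b0 := by rw [ha0, hb0]; ring
    have hy : r1 1 - r2 1 = a1 - b1 := by rw [ha1, hb1]; ring
    have hz : r1 2 - r2 2 = a2 - b2 := by rw [ha2, hb2]; ring
    rw [hx, hy, hz]
    -- |s a + t b|^2 = 0 = s^2 A + 2 s t a.b + t^2 B ; s A + t B = 0
    have n0 : (s * a0 + t * b0) ^ 2 + (s * a1 + t * b1) ^ 2 + (s * a2 + t * b2) ^ 2 = 0 := by
      rw [e0, e1, e2]; ring
    have : s * t * ((a0 - b0) ^ 2 + (a1 - b1) ^ 2 + (a2 - b2) ^ 2)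
        = (s + t) * (s * (a0 ^ 2 + a1 ^ 2 + a2 ^ 2) + t * (b0 ^ 2 + b1 ^ 2 + b2 ^ 2))
          - ((s * a0 + t * b0) ^ 2 + (s * a1 + t * b1) ^ 2 + (s * a2 + t * b2) ^ 2) := by ring
    rw [this, q, n0]; ring
  have hst : s * t = 0 := by
    rcases mul_eq_zero.1 key with h | h
    · exact h
    · exact absurd h hp3.ne'
  rcases mul_eq_zero.1 hst with h | h
  · subst h
    refine ⟨rfl, ?_⟩
    simp only [zero_mul, zero_add] at q
    rcases mul_eq_zero.1 q with h | h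
    · exact h
    · exact absurd h hp2.ne'
  · subst h
    refine ⟨?_, rfl⟩
    simp only [zero_mul, add_zero] at q
    rcases mul_eq_zero.1 q with h | h
    · exact h
    · exact absurd h hp1.ne'

/-- Three vectors of 4-space orthogonal to two independent ones are dependent. -/
lemma dep_of_orth {v1 v2 : V} (hv : LinearIndependent ℝ ![v1, v2]) (w : Fin 3 → V)
    (h1 : ∀ i, ⟪v1, w i⟫_ℝ = 0) (h2 : ∀ i, ⟪v2, w i⟫_ℝ = 0) :
    ∃ c : Fin 3 → ℝ, c ≠ 0 ∧ ∑ i, c i • w i = 0 := by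
  by_contra hcon
  push Not at hcon
  have hli : LinearIndependent ℝ w := by
    rw [Fintype.linearIndependent_iff]
    intro g hg i
    by_contra hi
    exact hcon g (fun h => hi (by rw [h]; rfl)) hg
  set K : Submodule ℝ V := Submodule.span ℝ (Set.range ![v1, v2]) with hK
  have hKr : Module.finrank ℝ K = 2 := by
    rw [hK, finrank_span_eq_card hv]; simp
  have hsum := Submodule.finrank_add_finrank_orthogonal K
  have hV : Module.finrank ℝ V = 4 := by simp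
  have hKo : Module.finrank ℝ Kᗮ = 2 := by omega
  have hmem : ∀ i, w i ∈ Kᗮ := by
    intro i
    rw [Submodule.mem_orthogonal]
    intro u hu
    rw [hK] at hu
    induction hu using Submodule.span_induction with
    | mem x hx =>
      rcases hx with ⟨j, rfl⟩
      fin_cases j
      · exact h1 i
      · exact h2 i
    | zero => simp
    | add x y _ _ hx hy => rw [inner_add_left, hx, hy, add_zero]
    | smul a x _ hx => rw [inner_smul_left, hx, mul_zero]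
  let w' : Fin 3 → Kᗮ := fun i => ⟨w i, hmem i⟩
  have hli' : LinearIndependent ℝ w' := by
    apply LinearIndependent.of_comp Kᗮ.subtype
    exact hli
  have := hli'.fintype_card_le_finrank
  simp at this
  omega

end Helper5.RNG
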